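import Pool.Agent.L5helper15.RB.A2

/-!
# The main term (lower bound, by Mertens)
-/

set_option autoImplicit false

open Finset MeasureTheory ProbabilityTheory Filter Topology
open ArithmeticFunction (vonMangoldt)

namespace Pool.Agent.L5helper86.RB

namespace Mn

open A2h

lemma mertL {a : ℕ} (ha : 2 ≤ a) {b : ℕ} (hab : a ≤ b) :
    Real.log (Real.log b) - Real.log (Real.log a) + Dm b / Real.log b - Dm a / Real.log a
        - (1 / Real.log a - 1 / Real.log b) ≤
      ∑ m ∈ Ioc a b, vonMangoldt m / (m * Real.log m) := by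
  induction b, hab using Nat.le_induction with
  | base => simp
  | succ b hb ih =>
    have hb2 : (2 : ℝ) ≤ b := by exact_mod_cast (ha.trans hb)
    rw [← Finset.insert_Ioc_right_eq_Ioc_add_one (by omega), sum_insert (by simp)]
    have hlb : 0 < Real.log b := Real.log_pos (by linarith)
    have hlb' : 0 < Real.log ((b + 1 : ℕ) : ℝ) := Real.log_pos (by push_cast; linarith)
    have hmono : Real.log b ≤ Real.log ((b + 1 : ℕ) : ℝ) :=
      Real.log_le_log (by linarith) (by push_cast; linarith)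
    have h1 : vonMangoldt (b + 1) / ((b + 1 : ℕ) : ℝ) =
        Dm (b + 1) - Dm b + (Real.log ((b + 1 : ℕ) : ℝ) - Real.log b) := by
      unfold Dm
      rw [← Finset.insert_Icc_right_eq_Icc_add_one (by omega), sum_insert (by simp)]
      ring
    have h2 : vonMangoldt (b + 1) / (((b + 1 : ℕ) : ℝ) * Real.log ((b + 1 : ℕ) : ℝ)) =
        (Dm (b + 1) - Dm b + (Real.log ((b + 1 : ℕ) : ℝ) - Real.log b)) / Real.log ((b + 1 : ℕ) : ℝ) := by
      rw [← h1, div_div]
    rw [h2]
    -- the increment of `log log`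
    have h3 : Real.log (Real.log ((b + 1 : ℕ) : ℝ)) - Real.log (Real.log b) ≤
        (Real.log ((b + 1 : ℕ) : ℝ) - Real.log b) / Real.log b := by
      have h := Real.log_le_sub_one_of_pos (div_pos hlb' hlb)
      rw [Real.log_div hlb'.ne' hlb.ne'] at h
      have h4 : (Real.log ((b + 1 : ℕ) : ℝ) - Real.log b) / Real.log b =
          Real.log ((b + 1 : ℕ) : ℝ) / Real.log b - 1 := by
        field_simp
      rw [h4]
      exact h
    have hδ : 0 ≤ 1 / Real.log b - 1 / Real.log ((b + 1 : ℕ) : ℝ) := by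
      have := one_div_le_one_div_of_le hlb hmono
      linarith
    have hlog1 : Real.log ((b + 1 : ℕ) : ℝ) - Real.log b ≤ 1 := by
      have hb0 : (0 : ℝ) < b := by linarith
      rw [← Real.log_div (by push_cast; linarith) hb0.ne']
      have h5 : ((b + 1 : ℕ) : ℝ) / b ≤ 2 := by
        rw [div_le_iff₀ hb0]
        push_cast
        linarith
      have h6 := Real.log_le_sub_one_of_pos (x := ((b + 1 : ℕ) : ℝ) / b) (by positivity)
      linarith
    have h7 : (Real.log ((b + 1 : ℕ) : ℝ) - Real.log b) / Real.log b -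
        (Real.log ((b + 1 : ℕ) : ℝ) - Real.log b) / Real.log ((b + 1 : ℕ) : ℝ) ≤
        1 / Real.log b - 1 / Real.log ((b + 1 : ℕ) : ℝ) := by
      have e : (Real.log ((b + 1 : ℕ) : ℝ) - Real.log b) / Real.log b -
          (Real.log ((b + 1 : ℕ) : ℝ) - Real.log b) / Real.log ((b + 1 : ℕ) : ℝ) =
          (Real.log ((b + 1 : ℕ) : ℝ) - Real.log b) * (1 / Real.log b - 1 / Real.log ((b + 1 : ℕ) : ℝ)) := by
        ring
      rw [e]
      exact mul_le_of_le_one_left hδ hlog1
    have h8 : Dm b / Real.log ((b + 1 : ℕ) : ℝ) ≤ Dm b / Real.log b :=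
      div_le_div_of_nonneg_left (Dm_nonneg (by omega)) hlb hmono
    have h9 : (Dm (b + 1) - Dm b + (Real.log ((b + 1 : ℕ) : ℝ) - Real.log b)) / Real.log ((b + 1 : ℕ) : ℝ) =
        Dm (b + 1) / Real.log ((b + 1 : ℕ) : ℝ) - Dm b / Real.log ((b + 1 : ℕ) : ℝ) +
          (Real.log ((b + 1 : ℕ) : ℝ) - Real.log b) / Real.log ((b + 1 : ℕ) : ℝ) := by ring
    rw [h9]
    linarith

lemma mertL' {a : ℕ} (ha : 2 ≤ a) {b : ℕ} (hab : a ≤ b) :
    Real.log (Real.log b) - Real.log (Real.log a) - 13 / Real.log a ≤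
      ∑ m ∈ Ioc a b, vonMangoldt m / (m * Real.log m) := by
  have h := mertL ha hab
  have ha2 : (2 : ℝ) ≤ a := by exact_mod_cast ha
  have hb2 : (2 : ℝ) ≤ b := by exact_mod_cast (ha.trans hab)
  have hla : 0 < Real.log a := Real.log_pos (by linarith)
  have hlb : 0 < Real.log b := Real.log_pos (by linarith)
  have h1 : Dm a / Real.log a ≤ 12 / Real.log a := div_le_div_of_nonneg_right (Dm_le (by omega)) hla.le
  have h2 : 0 ≤ Dm b / Real.log b := div_nonneg (Dm_nonneg (by omega)) hlb.le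
  have h3 : 0 ≤ 1 / Real.log b := by positivity
  have h4 : 13 / Real.log a = 12 / Real.log a + 1 / Real.log a := by ring
  rw [h4]
  linarith

end Mn

open Mn A2h in
/-- The main term. -/
theorem mainterm : ∃ C v1 : ℝ, 0 < C ∧ 1 ≤ v1 ∧ ∀ L M : ℝ, v1 ≤ L → L ≤ M →
    Real.log (M / L) - C ≤ ∫ v in L..M, gg v * Pool.Agent.H410R2.psiLog1 (Real.exp v) := by
  obtain ⟨v₁, hv₁⟩ := vm_bound
  refine ⟨100, max v₁ 2, by norm_num, (by norm_num : (1 : ℝ) ≤ 2).trans (le_max_right _ _),
    fun L M hL hLM => ?_⟩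
  have hL1 : v₁ ≤ L := (le_max_left _ _).trans hL
  have hL2 : 2 ≤ L := (le_max_right _ _).trans hL
  have hM2 : 2 ≤ M := hL2.trans hLM
  have h1 := A1_upper (fun m => vonMangoldt m) (fun m => ArithmeticFunction.vonMangoldt_nonneg) L M
    (by linarith) hLM
  have h2 : W1 (fun m => vonMangoldt m) (M + 1) ≤ 2 * Real.exp (M + 1) := hv₁ (M + 1) (by linarith)
  have h3 : 4 * Real.exp (-M) / M * W1 (fun m => vonMangoldt m) (M + 1) ≤ 12 := by
    have h4 : 0 ≤ 4 * Real.exp (-M) / M := by positivity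
    refine (mul_le_mul_of_nonneg_left h2 h4).trans ?_
    have h5 : 4 * Real.exp (-M) / M * (2 * Real.exp (M + 1)) = 8 * Real.exp 1 / M := by
      rw [Real.exp_add, Real.exp_neg]
      have := Real.exp_pos M
      field_simp
      ring
    rw [h5, div_le_iff₀ (by linarith)]
    have := Real.exp_one_lt_d9
    nlinarith
  have hint : ∫ v in L..M, gg v * Pool.Agent.H410R2.psiLog1 (Real.exp v) =
      ∫ v in L..M, gg v * W1 (fun m => vonMangoldt m) v := by
    refine intervalIntegral.integral_congr fun v _ => ?_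
    simp only [W1_vm]
  rw [hint]
  -- the floors
  have hfl : ∀ v : ℝ, 2 ≤ v → Real.exp v / 2 ≤ (⌊Real.exp v⌋₊ : ℝ) ∧ (⌊Real.exp v⌋₊ : ℝ) ≤ Real.exp v := by
    intro v hv
    have h6 : (3 : ℝ) ≤ Real.exp v := by
      have := Real.add_one_le_exp v
      linarith
    have h7 := Nat.lt_floor_add_one (Real.exp v)
    exact ⟨by linarith, Nat.floor_le (Real.exp_pos v).le⟩
  have hlog2 : Real.log 2 ≤ 1 := by
    have := Real.log_two_lt_d9
    linarith
  have hfl2 : ∀ v : ℝ, 2 ≤ v → v / 2 ≤ Real.log (⌊Real.exp v⌋₊ : ℝ) ∧ Real.log (⌊Real.exp v⌋₊ : ℝ) ≤ v := by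
    intro v hv
    obtain ⟨h8, h9⟩ := hfl v hv
    have h10 : 0 < Real.exp v / 2 := by positivity
    constructor
    · have h11 := Real.log_le_log h10 h8
      rw [Real.log_div (Real.exp_pos v).ne' (by norm_num), Real.log_exp] at h11
      linarith
    · have h11 := Real.log_le_log (h10.trans_le h8) h9
      rwa [Real.log_exp] at h11
  have ha : 2 ≤ ⌊Real.exp L⌋₊ := by
    rw [Nat.le_floor_iff (Real.exp_pos L).le]
    push_cast
    have := Real.add_one_le_exp L
    linarith
  have hab : ⌊Real.exp L⌋₊ ≤ ⌊Real.exp M⌋₊ := Nat.floor_le_floor (Real.exp_le_exp.2 hLM)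
  have h12 := mertL' ha hab
  obtain ⟨hLa, hLb⟩ := hfl2 L hL2
  obtain ⟨hMa, hMb⟩ := hfl2 M hM2
  have h13 : 13 / Real.log (⌊Real.exp L⌋₊ : ℝ) ≤ 13 := by
    rw [div_le_iff₀ (by linarith)]
    linarith
  have h14 : Real.log (Real.log (⌊Real.exp L⌋₊ : ℝ)) ≤ Real.log L := Real.log_le_log (by linarith) hLb
  have h15 : Real.log M - Real.log 2 ≤ Real.log (Real.log (⌊Real.exp M⌋₊ : ℝ)) := by
    rw [← Real.log_div (by linarith) (by norm_num)]
    exact Real.log_le_log (by linarith) hMa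
  rw [Real.log_div (by linarith) (by linarith)]
  linarith

end Pool.Agent.L5helper86.RB
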