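import Pool.Agent.L5helper86.RB.Base
import Pool.Agent.Erdos456.Iface
import Pool.Agent.Erdos456.Smooth2

/-!
# The mean value of `∑ n / p` over the small primes `p ≡ 1` modulo `n`

Upper bound sieve for the pairs of primes `n`, `k n + 1`, uniformly in `k`, and the mean value of the
singular series.
-/

set_option autoImplicit false

open Finset MeasureTheory ProbabilityTheory Filter Topology

namespace Pool.Agent.L5helper86.RB

/-- the mean value of the singular series -/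
lemma B_sum_GG : ∃ C : ℝ, 0 < C ∧ ∀ K : ℕ,
    ∑ m ∈ Icc 1 K, Pool.Agent.Erdos456.GG m ^ 2 * (m : ℝ)⁻¹ ≤ C * (1 + Real.log K) := by
  obtain ⟨C, hC, h⟩ := Pool.Agent.Erdos456.sum_GG_sq_div_le
  refine ⟨C, hC, fun K => ?_⟩
  have h0 : (0 : ℝ) ≤ C * (1 + Real.log K) := by
    have := Real.log_natCast_nonneg K
    positivity
  rw [← ENNReal.ofReal_le_ofReal_iff h0]
  refine le_trans ?_ (h K)
  rw [ENNReal.ofReal_sum_of_nonneg (fun m _ => by positivity)]
  refine le_trans (le_of_eq ?_) (ENNReal.sum_le_tsum (Icc 1 K))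
  apply Finset.sum_congr rfl
  intro m hm
  have := mem_Icc.1 hm
  rw [if_pos ⟨this.1, this.2⟩]

/-- the sum over the primes `p = k n + 1` -/
lemma B_inner {N n : ℕ} (hN : 2 ≤ N) (hn : N < n) :
    ∑ p ∈ (Icc 1 ((2 * N) ^ 3)).filter (fun p => p.Prime ∧ p % n = 1), (n : ℝ) / p ≤
      ∑ k ∈ (Icc 1 (8 * N ^ 2)).filter (fun k => (k * n + 1).Prime), (k : ℝ)⁻¹ := by
  classical
  have hn0 : 0 < n := by omega
  have hdec : ∀ p, p % n = 1 → p / n * n + 1 = p := fun p hp => by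
    have := Nat.div_add_mod p n
    rw [hp] at this
    rw [mul_comm]
    exact this
  have hk1 : ∀ p, p.Prime → p % n = 1 → 1 ≤ p / n := by
    intro p hp hp1
    rcases Nat.eq_zero_or_pos (p / n) with h | h
    · have := hdec p hp1
      rw [h] at this
      have := hp.two_le
      omega
    · exact h
  have h1 : ∀ p ∈ (Icc 1 ((2 * N) ^ 3)).filter (fun p => p.Prime ∧ p % n = 1),
      (n : ℝ) / p ≤ ((p / n : ℕ) : ℝ)⁻¹ := by
    intro p hp
    rw [mem_filter, mem_Icc] at hp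
    obtain ⟨⟨hp0, -⟩, hpp, hpn⟩ := hp
    have hk := hk1 p hpp hpn
    have hp' : (0 : ℝ) < p := by exact_mod_cast hp0
    have hk' : (0 : ℝ) < ((p / n : ℕ) : ℝ) := by exact_mod_cast hk
    rw [div_le_iff₀ hp', inv_mul_eq_div, le_div_iff₀ hk']
    have : n * (p / n) ≤ p := Nat.mul_div_le p n
    exact_mod_cast this
  refine (Finset.sum_le_sum h1).trans ?_
  have hinj : Set.InjOn (fun p => p / n)
      ((Icc 1 ((2 * N) ^ 3)).filter (fun p => p.Prime ∧ p % n = 1) : Set ℕ) := by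
    intro p hp p' hp' h
    rw [Finset.mem_coe, mem_filter] at hp hp'
    have h2 : p / n = p' / n := h
    rw [← hdec p hp.2.2, ← hdec p' hp'.2.2, h2]
  have e : ∑ p ∈ (Icc 1 ((2 * N) ^ 3)).filter (fun p => p.Prime ∧ p % n = 1), ((p / n : ℕ) : ℝ)⁻¹ =
      ∑ k ∈ ((Icc 1 ((2 * N) ^ 3)).filter (fun p => p.Prime ∧ p % n = 1)).image (fun p => p / n),
        (k : ℝ)⁻¹ := by
    rw [Finset.sum_image hinj]
  rw [e]
  refine Finset.sum_le_sum_of_subset_of_nonneg ?_ fun k _ _ => by positivity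
  intro k hk
  rw [mem_image] at hk
  obtain ⟨p, hp, rfl⟩ := hk
  rw [mem_filter, mem_Icc] at hp
  obtain ⟨⟨hp0, hpN⟩, hpp, hpn⟩ := hp
  rw [mem_filter, mem_Icc]
  refine ⟨⟨hk1 p hpp hpn, ?_⟩, ?_⟩
  · have h2 : p / n ≤ (2 * N) ^ 3 / N :=
      (Nat.div_le_div_right hpN).trans (Nat.div_le_div_left hn.le (by omega))
    have h3 : (2 * N) ^ 3 / N = 8 * N ^ 2 := by
      have : (2 * N) ^ 3 = 8 * N ^ 2 * N := by ring
      rw [this, Nat.mul_div_cancel _ (by omega)]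
    omega
  · rw [hdec p hpn]
    exact hpp

theorem Bsmall : ∃ C : ℝ, 0 < C ∧ ∀ N : ℕ, 2 ≤ N →
    ∑ n ∈ op N, ∑ p ∈ (Icc 1 ((2 * N) ^ 3)).filter (fun p => p.Prime ∧ p % n = 1), (n : ℝ) / p ≤
      C * N / Real.log N := by
  classical
  obtain ⟨C, hC, hs⟩ := Pool.Agent.Erdos456.sieve_two'
  obtain ⟨C', hC', hG⟩ := B_sum_GG
  refine ⟨8 * C * C', by positivity, fun N hN => ?_⟩
  have hNr : (2 : ℝ) ≤ N := by exact_mod_cast hN
  have hlogN : 0 < Real.log N := Real.log_pos (by linarith)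
  have hlog2 : Real.log N ≤ Real.log ((2 * N : ℕ) : ℝ) := by
    push_cast
    exact Real.log_le_log (by linarith) (by linarith)
  have hlog20 : 0 < Real.log ((2 * N : ℕ) : ℝ) := by linarith
  have hlog21 : 1 ≤ Real.log ((2 * N : ℕ) : ℝ) := by
    rw [Real.le_log_iff_exp_le (by push_cast; linarith)]
    push_cast
    linarith [Real.exp_one_lt_d9]
  -- the sum over `n` and `k`
  have h1 : ∑ n ∈ op N, ∑ p ∈ (Icc 1 ((2 * N) ^ 3)).filter (fun p => p.Prime ∧ p % n = 1),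
      (n : ℝ) / p ≤
      ∑ n ∈ op N, ∑ k ∈ (Icc 1 (8 * N ^ 2) : Finset ℕ).filter (fun k => (k * n + 1).Prime), (k : ℝ)⁻¹ := by
    refine Finset.sum_le_sum fun n hn => B_inner hN ?_
    unfold op at hn
    rw [mem_filter, mem_Ioc] at hn
    exact hn.1.1
  have h2 : ∑ n ∈ op N, ∑ k ∈ (Icc 1 (8 * N ^ 2) : Finset ℕ).filter (fun k => (k * n + 1).Prime), (k : ℝ)⁻¹ =
      ∑ k ∈ (Icc 1 (8 * N ^ 2) : Finset ℕ), (#((op N).filter fun n => (k * n + 1).Prime) : ℝ) * (k : ℝ)⁻¹ := by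
    simp_rw [Finset.sum_filter]
    rw [Finset.sum_comm]
    refine Finset.sum_congr rfl fun k _ => ?_
    rw [← Finset.sum_filter, Finset.sum_const, nsmul_eq_mul]
  have h3 : ∀ k ∈ (Icc 1 (8 * N ^ 2) : Finset ℕ), (#((op N).filter fun n => (k * n + 1).Prime) : ℝ) * (k : ℝ)⁻¹ ≤
      C * ((2 * N : ℕ) : ℝ) / Real.log ((2 * N : ℕ) : ℝ) ^ 2 *
        (Pool.Agent.Erdos456.GG k ^ 2 * (k : ℝ)⁻¹) := by
    intro k hk
    have hk1 := (mem_Icc.1 hk).1
    have h4 : (op N).filter (fun n => (k * n + 1).Prime) ⊆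
        (Icc 1 (2 * N)).filter (fun n => (1 * n + 0).Prime ∧ (k * n + 1).Prime) := by
      intro n hn
      unfold op at hn
      rw [mem_filter, mem_filter, mem_Ioc] at hn
      rw [mem_filter, mem_Icc]
      refine ⟨⟨by omega, hn.1.1.2⟩, by simpa using hn.1.2.1, hn.2⟩
    have h5 : (#((op N).filter fun n => (k * n + 1).Prime) : ℝ) ≤
        (#((Icc 1 (2 * N)).filter (fun n => (1 * n + 0).Prime ∧ (k * n + 1).Prime)) : ℝ) := by
      exact_mod_cast card_le_card h4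
    have h6 := hs 1 0 k 1 (2 * N) one_pos (by omega) (by simp) (by simp) (by simp) (by omega)
    have e1 : (1 * k * (((1 * 1 : ℕ) : ℤ) - ((k * 0 : ℕ) : ℤ)).natAbs) = k := by simp
    rw [e1] at h6
    have h7 := h5.trans h6
    calc (#((op N).filter fun n => (k * n + 1).Prime) : ℝ) * (k : ℝ)⁻¹
        ≤ (C * Pool.Agent.Erdos456.GG k ^ 2 * ((2 * N : ℕ) : ℝ) /
            Real.log ((2 * N : ℕ) : ℝ) ^ 2) * (k : ℝ)⁻¹ :=
          mul_le_mul_of_nonneg_right h7 (by positivity)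
      _ = _ := by ring
  have h4 : (1 + Real.log ((8 * N ^ 2 : ℕ) : ℝ)) ≤ 4 * Real.log ((2 * N : ℕ) : ℝ) := by
    have h5 : Real.log ((8 * N ^ 2 : ℕ) : ℝ) ≤ Real.log (((2 * N : ℕ) : ℝ) ^ 3) := by
      refine Real.log_le_log (by positivity) ?_
      push_cast
      nlinarith
    rw [Real.log_pow] at h5
    push_cast at h5 ⊢
    push_cast at hlog21
    linarith
  rw [h2] at h1
  refine h1.trans ((Finset.sum_le_sum h3).trans ?_)
  rw [← Finset.mul_sum]
  calc C * ((2 * N : ℕ) : ℝ) / Real.log ((2 * N : ℕ) : ℝ) ^ 2 *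
        ∑ k ∈ (Icc 1 (8 * N ^ 2) : Finset ℕ), Pool.Agent.Erdos456.GG k ^ 2 * (k : ℝ)⁻¹
      ≤ C * ((2 * N : ℕ) : ℝ) / Real.log ((2 * N : ℕ) : ℝ) ^ 2 *
        (C' * (4 * Real.log ((2 * N : ℕ) : ℝ))) := by
        refine mul_le_mul_of_nonneg_left ((hG _).trans ?_) (by positivity)
        exact mul_le_mul_of_nonneg_left h4 hC'.le
    _ = 8 * C * C' * N / Real.log ((2 * N : ℕ) : ℝ) := by
        push_cast
        push_cast at hlog20
        field_simp
        ring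
    _ ≤ 8 * C * C' * N / Real.log N := by
        refine div_le_div_of_nonneg_left (by positivity) hlogN hlog2

end Pool.Agent.L5helper86.RB
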