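import Pool.Agent.L5helper86.RB.Prob

/-! Project RB (helper86): negative orthant dependence of the survivors. -/

set_option autoImplicit false

namespace Pool.Agent.L5helper86.RB

open Finset MeasureTheory ProbabilityTheory
open Pool.Agent.L5helper86.UL (Sys Dep)

theorem neg_aux {Ω : Type} [MeasurableSpace Ω] {P : Measure Ω} {X : ℕ → Ω → ℕ} (h : UL.Sys P X)
    (B : ℕ → Finset ℕ) (s : Finset ℕ) : (∀ p ∈ s, p.Prime) → (∀ p ∈ s, B p ⊆ range p) →
    ∀ F : (ℕ → ℕ) → ℝ, Dep s F → (∀ a, 0 ≤ F a) → (∀ a, F a ≤ 1) →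
    (∀ p ∈ s, ∀ a : ℕ → ℕ, ∀ r ∈ B p, ∀ r', F (Function.update a p r) ≤ F (Function.update a p r')) →
    (∏ p ∈ s, (1 - (#(B p) : ℝ) / p)) * ∫ ω, F (fun q => X q ω) ∂P ≤
      ∫ ω, F (fun q => X q ω) * (∏ p ∈ s, if X p ω ∈ B p then (0 : ℝ) else 1) ∂P := by
  classical
  have hP := h.prob
  induction s using Finset.induction_on with
  | empty => intro _ _ F _ _ _ _; simp
  | insert p s hps ih =>
    intro hs hB F hF hF0 hF1 hmon
    have hp := hs p (mem_insert_self _ _)
    have hs' : ∀ q ∈ s, q.Prime := fun q hq => hs q (mem_insert_of_mem hq)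
    have hp0 : (0 : ℝ) < p := by exact_mod_cast hp.pos
    -- the sections
    set G : ℕ → (ℕ → ℕ) → ℝ := fun r a => F (Function.update a p r) with hGdef
    have hGdep : ∀ r, Dep s (G r) := by
      intro r a b hab
      refine hF _ _ fun q hq => ?_
      by_cases hqp : q = p
      · subst hqp; simp
      · rw [Function.update_of_ne hqp, Function.update_of_ne hqp]
        exact hab q ((mem_insert.1 hq).resolve_left hqp)
    have hprod0 : ∀ a : ℕ → ℕ, 0 ≤ ∏ q ∈ s, (if a q ∈ B q then (0 : ℝ) else 1) := fun a =>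
      prod_nonneg fun q _ => by split_ifs <;> simp
    have hprod1 : ∀ a : ℕ → ℕ, ∏ q ∈ s, (if a q ∈ B q then (0 : ℝ) else 1) ≤ 1 := fun a =>
      prod_le_one (fun q _ => by split_ifs <;> simp) fun q _ => by split_ifs <;> simp
    have hdp : Dep s (fun a => ∏ q ∈ s, (if a q ∈ B q then (0 : ℝ) else 1)) := fun a b hab =>
      prod_congr rfl fun q hq => by rw [hab q hq]
    have hself : ∀ ω, Function.update (fun q => X q ω) p (X p ω) = fun q => X q ω := fun ω =>
      Function.update_eq_self _ _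
    have e1 : ∫ ω, F (fun q => X q ω) ∂P = (1 / (p : ℝ)) * ∑ r ∈ range p, ∫ ω, G r (fun q => X q ω) ∂P := by
      rw [← h.int_step hs' hp hps (G := G) hGdep (M := 1) (fun r a => by
        rw [abs_of_nonneg (hF0 _)]; exact hF1 _)]
      refine integral_congr_ae (Filter.Eventually.of_forall fun ω => ?_)
      show F (fun q => X q ω) = F (Function.update (fun q => X q ω) p (X p ω))
      rw [hself ω]
    have e2 : ∫ ω, F (fun q => X q ω) * (∏ q ∈ insert p s, if X q ω ∈ B q then (0 : ℝ) else 1) ∂P =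
        (1 / (p : ℝ)) * ∑ r ∈ range p, (if r ∈ B p then (0 : ℝ) else 1) *
          ∫ ω, G r (fun q => X q ω) * (∏ q ∈ s, if X q ω ∈ B q then (0 : ℝ) else 1) ∂P := by
      have key := h.int_step hs' hp hps (G := fun r a => (if r ∈ B p then (0 : ℝ) else 1) *
        (G r a * ∏ q ∈ s, (if a q ∈ B q then (0 : ℝ) else 1))) (fun r a b hab => by
          have e0 : ∏ q ∈ s, (if a q ∈ B q then (0 : ℝ) else 1) = ∏ q ∈ s, (if b q ∈ B q then (0 : ℝ) else 1) :=
            hdp a b hab
          show (if r ∈ B p then (0 : ℝ) else 1) * _ = (if r ∈ B p then (0 : ℝ) else 1) * _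
          rw [hGdep r a b hab, e0]) (M := 1) (fun r a => by
          have h1 : |G r a * ∏ q ∈ s, (if a q ∈ B q then (0 : ℝ) else 1)| ≤ 1 := by
            rw [abs_of_nonneg (mul_nonneg (hF0 _) (hprod0 a))]
            exact mul_le_one₀ (hF1 _) (hprod0 a) (hprod1 a)
          rw [abs_mul]
          split_ifs
          · simp
          · simpa using h1)
      have e3 : (fun ω => F (fun q => X q ω) * (∏ q ∈ insert p s, if X q ω ∈ B q then (0 : ℝ) else 1)) =
          fun ω => (if X p ω ∈ B p then (0 : ℝ) else 1) *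
            (G (X p ω) (fun q => X q ω) * ∏ q ∈ s, (if X q ω ∈ B q then (0 : ℝ) else 1)) := by
        funext ω
        rw [prod_insert hps]
        have : G (X p ω) (fun q => X q ω) = F (fun q => X q ω) := by
          show F (Function.update (fun q => X q ω) p (X p ω)) = _
          rw [hself ω]
        rw [this]
        ring
      rw [e3, key]
      congr 1
      refine sum_congr rfl fun r _ => ?_
      rw [integral_const_mul]
    have ih' : ∀ r, (∏ q ∈ s, (1 - (#(B q) : ℝ) / q)) * ∫ ω, G r (fun q => X q ω) ∂P ≤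
        ∫ ω, G r (fun q => X q ω) * (∏ q ∈ s, if X q ω ∈ B q then (0 : ℝ) else 1) ∂P := by
      intro r
      refine ih hs' (fun q hq => hB q (mem_insert_of_mem hq)) (G r) (hGdep r) (fun a => hF0 _) (fun a => hF1 _) ?_
      intro q hq a t ht t'
      have hqp : q ≠ p := fun e => hps (e ▸ hq)
      show F (Function.update (Function.update a q t) p r) ≤ F (Function.update (Function.update a q t') p r)
      rw [Function.update_comm hqp, Function.update_comm hqp]
      exact hmon q (mem_insert_of_mem hq) _ t ht t'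
    set I : ℕ → ℝ := fun r => ∫ ω, G r (fun q => X q ω) ∂P with hI
    have hI0 : ∀ r, 0 ≤ I r := fun r => integral_nonneg fun ω => hF0 _
    have hIint : ∀ r, Integrable (fun ω => G r (fun q => X q ω)) P := fun r =>
      h.int_dep (hGdep r) (M := 1) fun a => by rw [abs_of_nonneg (hF0 _)]; exact hF1 _
    have hImon : ∀ r ∈ B p, ∀ r', I r ≤ I r' := by
      intro r hr r'
      exact integral_mono (hIint r) (hIint r') fun ω => hmon p (mem_insert_self _ _) _ r hr r'
    set π : ℝ := ∏ q ∈ s, (1 - (#(B q) : ℝ) / q) with hπ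
    have hπ0 : 0 ≤ π := by
      refine prod_nonneg fun q hq => ?_
      have hq0 : (0 : ℝ) < q := by exact_mod_cast (hs' q hq).pos
      have h1 : #(B q) ≤ q := by
        have := card_le_card (hB q (mem_insert_of_mem hq))
        rwa [card_range] at this
      have h2 : (#(B q) : ℝ) / q ≤ 1 := by
        rw [div_le_one hq0]
        exact_mod_cast h1
      linarith
    -- the averaging inequality
    have hBsub := hB p (mem_insert_self _ _)
    have hsplit : ∑ r ∈ range p, I r = ∑ r ∈ B p, I r + ∑ r ∈ range p \ B p, I r := by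
      rw [add_comm, sum_sdiff hBsub]
    have hif : ∑ r ∈ range p, (if r ∈ B p then (0 : ℝ) else 1) * I r = ∑ r ∈ range p \ B p, I r := by
      rw [← sum_sdiff hBsub, sum_eq_zero (s := B p) (fun r hr => by rw [if_pos hr, zero_mul]), add_zero]
      exact sum_congr rfl fun r hr => by rw [if_neg (mem_sdiff.1 hr).2, one_mul]
    have hcard : ((#(range p \ B p) : ℕ) : ℝ) = p - #(B p) := by
      rw [card_sdiff_of_subset hBsub, card_range, Nat.cast_sub]
      have := card_le_card hBsub
      rwa [card_range] at this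
    have hcross : ((p : ℝ) - #(B p)) * ∑ r ∈ B p, I r ≤ #(B p) * ∑ r ∈ range p \ B p, I r := by
      rw [← hcard]
      have h1 : ((#(range p \ B p) : ℕ) : ℝ) * ∑ r ∈ B p, I r = ∑ r' ∈ range p \ B p, ∑ r ∈ B p, I r := by
        rw [sum_const, nsmul_eq_mul]
      have h2 : (#(B p) : ℝ) * ∑ r ∈ range p \ B p, I r = ∑ r' ∈ range p \ B p, ∑ r ∈ B p, I r' := by
        rw [mul_sum]
        exact sum_congr rfl fun r' _ => by rw [sum_const, nsmul_eq_mul]
      rw [h1, h2]
      exact sum_le_sum fun r' _ => sum_le_sum fun r hr => hImon r hr r'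
    have havg : (1 - (#(B p) : ℝ) / p) * ∑ r ∈ range p, I r ≤ ∑ r ∈ range p \ B p, I r := by
      have h1 : (1 - (#(B p) : ℝ) / p) = ((p : ℝ) - #(B p)) / p := by field_simp
      rw [h1, div_mul_eq_mul_div, div_le_iff₀ hp0, hsplit]
      nlinarith [hcross]
    rw [e1, e2, prod_insert hps]
    have h3 : ∑ r ∈ range p, (if r ∈ B p then (0 : ℝ) else 1) * (π * I r) ≤
        ∑ r ∈ range p, (if r ∈ B p then (0 : ℝ) else 1) *
          ∫ ω, G r (fun q => X q ω) * (∏ q ∈ s, if X q ω ∈ B q then (0 : ℝ) else 1) ∂P := by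
      refine sum_le_sum fun r _ => mul_le_mul_of_nonneg_left (ih' r) ?_
      split_ifs <;> simp
    have h4 : ∑ r ∈ range p, (if r ∈ B p then (0 : ℝ) else 1) * (π * I r) = π * ∑ r ∈ range p \ B p, I r := by
      rw [← hif, mul_sum]
      exact sum_congr rfl fun r _ => by ring
    have h5 : (1 - (#(B p) : ℝ) / p) * π * (1 / (p : ℝ) * ∑ r ∈ range p, I r) ≤
        1 / (p : ℝ) * (π * ∑ r ∈ range p \ B p, I r) := by
      have h6 : (1 - (#(B p) : ℝ) / p) * π * (1 / (p : ℝ) * ∑ r ∈ range p, I r) =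
          1 / (p : ℝ) * (π * ((1 - (#(B p) : ℝ) / p) * ∑ r ∈ range p, I r)) := by ring
      rw [h6]
      refine mul_le_mul_of_nonneg_left (mul_le_mul_of_nonneg_left havg hπ0) (by positivity)
    refine h5.trans ?_
    rw [← h4]
    exact mul_le_mul_of_nonneg_left h3 (by positivity)

theorem neg_orth2 {Ω : Type} [MeasurableSpace Ω] {P : Measure Ω} {X : ℕ → Ω → ℕ} (h : UL.Sys P X)
    (s : Finset ℕ) (hs : ∀ p ∈ s, p.Prime) (R : ℕ → ℕ → Finset ℕ) (hR : ∀ p ∈ s, ∀ n, R p n ⊆ range p)
    (hd : ∀ p ∈ s, ∀ n m, n ≠ m → Disjoint (R p n) (R p m)) (T : Finset ℕ) :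
    P.real (⋂ n ∈ T, {ω | ∀ p ∈ s, X p ω ∉ R p n}ᶜ) ≤
      ∏ n ∈ T, (1 - P.real {ω | ∀ p ∈ s, X p ω ∉ R p n}) := by
  classical
  have hP := h.prob
  set A : ℕ → (ℕ → ℕ) → ℝ := fun n a => ∏ p ∈ s, if a p ∈ R p n then (0 : ℝ) else 1 with hA
  have hA0 : ∀ n a, 0 ≤ A n a := fun n a => prod_nonneg fun q _ => by split_ifs <;> simp
  have hA1 : ∀ n a, A n a ≤ 1 := fun n a =>
    prod_le_one (fun q _ => by split_ifs <;> simp) fun q _ => by split_ifs <;> simp
  have hAdep : ∀ n, Dep s (A n) := fun n a b hab => prod_congr rfl fun q hq => by rw [hab q hq]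
  set F : Finset ℕ → (ℕ → ℕ) → ℝ := fun T a => ∏ n ∈ T, (1 - A n a) with hFdef
  have hF0 : ∀ T a, 0 ≤ F T a := fun T a => prod_nonneg fun n _ => by linarith [hA1 n a]
  have hF1 : ∀ T a, F T a ≤ 1 := fun T a =>
    prod_le_one (fun n _ => by linarith [hA1 n a]) fun n _ => by linarith [hA0 n a]
  have hFdep : ∀ T, Dep s (F T) := fun T a b hab => prod_congr rfl fun n _ => by rw [hAdep n a b hab]
  have hmeas : ∀ n, MeasurableSet {ω | ∀ p ∈ s, X p ω ∉ R p n} := by
    intro n
    have e : {ω | ∀ p ∈ s, X p ω ∉ R p n} = ⋂ p ∈ s, X p ⁻¹' {b | b ∉ R p n} := by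
      ext ω
      simp
    rw [e]
    exact Finset.measurableSet_biInter _ fun p _ => h.meas p MeasurableSet.of_discrete
  have hAone : ∀ n ω, (∀ p ∈ s, X p ω ∉ R p n) → A n (fun q => X q ω) = 1 := fun n ω hω =>
    prod_eq_one fun p hp => if_neg (hω p hp)
  have hAzero : ∀ n ω, ¬ (∀ p ∈ s, X p ω ∉ R p n) → A n (fun q => X q ω) = 0 := by
    intro n ω hω
    push Not at hω
    obtain ⟨p, hp, hpB⟩ := hω
    exact prod_eq_zero hp (if_pos hpB)
  have hreal : ∀ T : Finset ℕ, P.real (⋂ n ∈ T, {ω | ∀ p ∈ s, X p ω ∉ R p n}ᶜ) =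
      ∫ ω, F T (fun q => X q ω) ∂P := by
    intro T
    have hm : MeasurableSet (⋂ n ∈ T, {ω | ∀ p ∈ s, X p ω ∉ R p n}ᶜ) :=
      Finset.measurableSet_biInter _ fun n _ => (hmeas n).compl
    have e : (fun ω => F T (fun q => X q ω)) =
        (⋂ n ∈ T, {ω | ∀ p ∈ s, X p ω ∉ R p n}ᶜ).indicator (fun _ => (1 : ℝ)) := by
      funext ω
      by_cases hω : ω ∈ ⋂ n ∈ T, {ω | ∀ p ∈ s, X p ω ∉ R p n}ᶜ
      · rw [Set.indicator_of_mem hω]
        refine prod_eq_one fun n hn => ?_
        rw [Set.mem_iInter₂] at hω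
        rw [hAzero n ω (hω n hn), sub_zero]
      · rw [Set.indicator_of_notMem hω]
        rw [Set.mem_iInter₂] at hω
        push Not at hω
        obtain ⟨n, hn, hωn⟩ := hω
        rw [Set.notMem_compl_iff] at hωn
        refine prod_eq_zero hn ?_
        rw [hAone n ω hωn, sub_self]
    rw [e, integral_indicator hm]
    simp [Measure.real]
  have hprobA : ∀ n, P.real {ω | ∀ p ∈ s, X p ω ∉ R p n} = ∏ p ∈ s, (1 - (#(R p n) : ℝ) / p) := fun n =>
    avoid_prob h (fun p => R p n) s hs fun p hp => hR p hp n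
  have hπ0 : ∀ n, 0 ≤ 1 - P.real {ω | ∀ p ∈ s, X p ω ∉ R p n} := fun n => by
    have : P.real {ω | ∀ p ∈ s, X p ω ∉ R p n} ≤ 1 := measureReal_le_one
    linarith
  rw [hreal]
  induction T using Finset.induction_on with
  | empty => simp [hFdef]
  | insert m T hmT ih =>
    rw [prod_insert hmT]
    have hmon : ∀ p ∈ s, ∀ a : ℕ → ℕ, ∀ r ∈ R p m, ∀ r', F T (Function.update a p r) ≤
        F T (Function.update a p r') := by
      intro p hp a r hr r'
      refine prod_le_prod (fun n _ => by linarith [hA1 n (Function.update a p r)]) fun n hn => ?_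
      have hnm : n ≠ m := fun e => hmT (e ▸ hn)
      have hrn : r ∉ R p n := fun hr' => (Finset.disjoint_left.1 (hd p hp n m hnm)) hr' hr
      have : A n (Function.update a p r') ≤ A n (Function.update a p r) := by
        refine prod_le_prod (fun q _ => by split_ifs <;> simp) fun q hq => ?_
        by_cases hqp : q = p
        · subst hqp
          rw [Function.update_self, Function.update_self, if_neg hrn]
          split_ifs <;> simp
        · rw [Function.update_of_ne hqp, Function.update_of_ne hqp]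
      linarith
    have hk := neg_aux h (fun p => R p m) s hs (fun p hp => hR p hp m) (F T) (hFdep T) (hF0 T) (hF1 T) hmon
    rw [← hprobA m] at hk
    have hint1 : Integrable (fun ω => F T (fun q => X q ω)) P :=
      h.int_dep (hFdep T) (M := 1) fun a => by rw [abs_of_nonneg (hF0 T a)]; exact hF1 T a
    have hint2 : Integrable (fun ω => F T (fun q => X q ω) * A m (fun q => X q ω)) P :=
      h.int_dep (G := fun a => F T a * A m a) (s := s) (fun a b hab => by
        show F T a * A m a = F T b * A m b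
        rw [hFdep T a b hab, hAdep m a b hab]) (M := 1) fun a => by
          rw [abs_of_nonneg (mul_nonneg (hF0 T a) (hA0 m a))]
          exact mul_le_one₀ (hF1 T a) (hA0 m a) (hA1 m a)
    have e : ∫ ω, F (insert m T) (fun q => X q ω) ∂P =
        ∫ ω, F T (fun q => X q ω) ∂P - ∫ ω, F T (fun q => X q ω) * A m (fun q => X q ω) ∂P := by
      rw [← integral_sub hint1 hint2]
      refine integral_congr_ae (Filter.Eventually.of_forall fun ω => ?_)
      show F (insert m T) (fun q => X q ω) = F T (fun q => X q ω) - F T (fun q => X q ω) * A m (fun q => X q ω)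
      simp only [hFdef]
      rw [prod_insert hmT]
      ring
    rw [e]
    have h1 : ∫ ω, F T (fun q => X q ω) ∂P - ∫ ω, F T (fun q => X q ω) * A m (fun q => X q ω) ∂P ≤
        (1 - P.real {ω | ∀ p ∈ s, X p ω ∉ R p m}) * ∫ ω, F T (fun q => X q ω) ∂P := by
      have : P.real {ω | ∀ p ∈ s, X p ω ∉ R p m} * ∫ ω, F T (fun q => X q ω) ∂P ≤
          ∫ ω, F T (fun q => X q ω) * A m (fun q => X q ω) ∂P := hk
      linarith
    exact h1.trans (mul_le_mul_of_nonneg_left ih (hπ0 m))

end Pool.Agent.L5helper86.RB
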