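import Pool.Agent.L5helper86.RB.Base
import Pool.Agent.L5helper66.RB.C1

/-! Project RB (helper86): the ratio of the survival probabilities at `e^(θ'n)` and `e^(θn)`. -/

set_option autoImplicit false

namespace Pool.Agent.L5helper86.RB

open Finset

lemma rt_exp_sub {a b : ℝ} (ha : 0 ≤ a) : Real.exp (-a) - Real.exp (-b) ≤ |b - a| := by
  have h1 : Real.exp (-b) = Real.exp (-a) * Real.exp (-(b - a)) := by
    rw [← Real.exp_add]; congr 1; ring
  have h2 : 1 - (b - a) ≤ Real.exp (-(b - a)) := by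
    have := Real.add_one_le_exp (-(b - a))
    linarith
  have h3 : Real.exp (-a) ≤ 1 := Real.exp_le_one_iff.2 (by linarith)
  have h4 : 0 ≤ Real.exp (-a) := (Real.exp_pos _).le
  have h5 : b - a ≤ |b - a| := le_abs_self _
  have h6 : 0 ≤ |b - a| := abs_nonneg _
  rw [h1]
  nlinarith [mul_le_mul_of_nonneg_left h2 h4, mul_le_mul_of_nonneg_left h5 h4, mul_le_mul_of_nonneg_right h3 h6]

lemma rt_one_sub {x : ℝ} (h0 : 0 ≤ x) (h1 : x ≤ 1 / 2) : Real.exp (-(x + 2 * x ^ 2)) ≤ 1 - x := by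
  have hpos : 0 < 1 - x := by linarith
  have h2 := Real.one_sub_inv_le_log_of_pos hpos
  have h3 : (1 - x)⁻¹ ≤ 1 + x + 2 * x ^ 2 := by
    rw [inv_le_comm₀ hpos (by positivity), inv_eq_one_div, div_le_iff₀ (by positivity)]
    nlinarith [mul_nonneg h0 h0, mul_nonneg (mul_nonneg h0 h0) (sub_nonneg.2 h1)]
  rw [← Real.exp_log hpos]
  apply Real.exp_le_exp.2
  linarith

lemma rt_rts_le (p n : ℕ) : (#(rts p n) : ℝ) ≤ p := by
  have h : #(rts p n) ≤ #(range p) := card_le_card (filter_subset _ _)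
  rw [card_range] at h
  exact_mod_cast h

lemma rt_fac_nonneg (p n : ℕ) : 0 ≤ 1 - (#(rts p n) : ℝ) / p := by
  rcases Nat.eq_zero_or_pos p with rfl | hp
  · simp
  · have hp0 : (0 : ℝ) < p := by exact_mod_cast hp
    have : (#(rts p n) : ℝ) / p ≤ 1 := by
      rw [div_le_one hp0]
      exact rt_rts_le p n
    linarith

theorem prob_ratio (θ θ' : ℝ) (hθ : 0 < θ) (hθ' : θ < θ')
    (hrec : ∀ ε : ℝ, 0 < ε → ∃ n0 : ℕ, ∀ n : ℕ, n0 ≤ n → n.Prime →
      |(∑ p ∈ (pz (Real.exp (θ' * n))).filter (fun p : ℕ => Real.exp (θ * n) < (p : ℝ) ∧ p % n = 1), ((n : ℝ) - 1) / p) -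
        Real.log (θ' / θ)| ≤ ε) :
    ∀ ε : ℝ, 0 < ε → ∃ n0 : ℕ, ∀ n : ℕ, n0 ≤ n → n.Prime → n ≠ 2 →
      |Pn (Real.exp (θ' * n)) n - θ / θ' * Pn (Real.exp (θ * n)) n| ≤ ε * Pn (Real.exp (θ * n)) n := by
  intro ε hε
  have hθ'0 : 0 < θ' := hθ.trans hθ'
  set L : ℝ := Real.log (θ' / θ) with hL
  have hL0 : 0 ≤ L := Real.log_nonneg (by rw [le_div_iff₀ hθ]; linarith)
  have hexpL : Real.exp (-L) = θ / θ' := by
    rw [Real.exp_neg, hL, Real.exp_log (by positivity), inv_div]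
  set ε' : ℝ := min (ε / 2) 1 with hε'
  have hε'0 : 0 < ε' := lt_min (by positivity) one_pos
  obtain ⟨n1, hn1⟩ := hrec ε' hε'0
  obtain ⟨n2, hn2⟩ := exists_nat_ge (4 / θ ^ 2 + 8 * (L + 1) / (θ ^ 2 * ε))
  refine ⟨max n1 (n2 + 1), fun n hn hnp hne2 => ?_⟩
  have hnn1 : n1 ≤ n := (le_max_left _ _).trans hn
  have hnn2 : n2 + 1 ≤ n := (le_max_right _ _).trans hn
  have hn0 : (0 : ℝ) < n := by exact_mod_cast hnp.pos
  have hnR : 4 / θ ^ 2 + 8 * (L + 1) / (θ ^ 2 * ε) ≤ n := by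
    refine hn2.trans ?_
    exact_mod_cast (Nat.le_succ n2).trans hnn2
  have hpos1 : 0 ≤ 8 * (L + 1) / (θ ^ 2 * ε) := by positivity
  have hpos2 : 0 ≤ 4 / θ ^ 2 := by positivity
  have hn4 : 4 ≤ θ ^ 2 * n := by
    have : 4 / θ ^ 2 ≤ n := by linarith
    rw [div_le_iff₀ (by positivity)] at this
    linarith
  have hn8 : 8 * (L + 1) ≤ θ ^ 2 * ε * n := by
    have : 8 * (L + 1) / (θ ^ 2 * ε) ≤ n := by linarith
    rw [div_le_iff₀ (by positivity)] at this
    linarith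
  -- the exponential
  set E1 : ℝ := Real.exp (θ * n) with hE1
  set E2 : ℝ := Real.exp (θ' * n) with hE2
  have hE1pos : 0 < E1 := Real.exp_pos _
  have hE1q : θ ^ 2 * (n : ℝ) ^ 2 / 2 ≤ E1 := by
    have h := Real.quadratic_le_exp_of_nonneg (x := θ * n) (by positivity)
    have h' : (θ * (n : ℝ)) ^ 2 = θ ^ 2 * (n : ℝ) ^ 2 := by ring
    have h'' : 0 ≤ θ * (n : ℝ) := by positivity
    rw [h'] at h
    linarith
  have hE12n : 2 * (n : ℝ) ≤ E1 := by nlinarith [hE1q, hn4]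
  have hE12 : E1 ≤ E2 := Real.exp_le_exp.2 (by nlinarith)
  have hquot : (n : ℝ) / E1 * (L + 1) ≤ ε / 4 := by
    rw [div_mul_eq_mul_div, div_le_iff₀ hE1pos]
    nlinarith [hE1q, hn8]
  set F : Finset ℕ := (pz E2).filter (fun p : ℕ => E1 < (p : ℝ) ∧ p % n = 1) with hF
  set S : ℝ := ∑ p ∈ F, ((n : ℝ) - 1) / p with hS
  have hSL : |S - L| ≤ ε' := hn1 n hnn1 hnp
  have hn1' : (1 : ℝ) ≤ n := by exact_mod_cast hnp.one_lt.le
  have hFp : ∀ p ∈ F, p.Prime ∧ E1 < (p : ℝ) ∧ p % n = 1 := by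
    intro p hp
    rw [hF, mem_filter, mem_pz] at hp
    exact ⟨hp.1.1, hp.2.1, hp.2.2⟩
  have hx0 : ∀ p ∈ F, 0 ≤ ((n : ℝ) - 1) / p := fun p _ => div_nonneg (by linarith) (Nat.cast_nonneg p)
  have hxE : ∀ p ∈ F, ((n : ℝ) - 1) / p ≤ n / E1 := by
    intro p hp
    have h1 := (hFp p hp).2.1
    exact div_le_div₀ hn0.le (by linarith) hE1pos h1.le
  have hx1 : ∀ p ∈ F, ((n : ℝ) - 1) / p ≤ 1 / 2 := by
    intro p hp
    refine (hxE p hp).trans ?_
    rw [div_le_div_iff₀ hE1pos (by norm_num)]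
    linarith
  have hS0 : 0 ≤ S := sum_nonneg hx0
  have hSle : S ≤ L + 1 := by
    have h1 := (abs_le.1 hSL).2
    have h2 : ε' ≤ 1 := min_le_right _ _
    linarith
  set T : ℝ := ∑ p ∈ F, (((n : ℝ) - 1) / p) ^ 2 with hT
  have hT0 : 0 ≤ T := sum_nonneg fun p _ => sq_nonneg _
  have hTle : T ≤ ε / 4 := by
    have h1 : T ≤ n / E1 * S := by
      rw [hT, hS, mul_sum]
      refine sum_le_sum fun p hp => ?_
      rw [sq]
      exact mul_le_mul_of_nonneg_right (hxE p hp) (hx0 p hp)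
    have h2 : (n : ℝ) / E1 * S ≤ n / E1 * (L + 1) := mul_le_mul_of_nonneg_left hSle (by positivity)
    linarith
  -- the quotient
  set Q : ℝ := ∏ p ∈ F, (1 - ((n : ℝ) - 1) / p) with hQ
  have hQup : Q ≤ Real.exp (-S) := by
    rw [hQ, hS, ← sum_neg_distrib, Real.exp_sum]
    refine prod_le_prod (fun p hp => by linarith [hx1 p hp]) fun p hp => ?_
    have := Real.add_one_le_exp (-(((n : ℝ) - 1) / p))
    linarith
  have hQlow : Real.exp (-(S + 2 * T)) ≤ Q := by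
    have h1 : -(S + 2 * T) = ∑ p ∈ F, -(((n : ℝ) - 1) / p + 2 * (((n : ℝ) - 1) / p) ^ 2) := by
      rw [sum_neg_distrib, sum_add_distrib, ← mul_sum]
    rw [h1, Real.exp_sum, hQ]
    exact prod_le_prod (fun p _ => (Real.exp_pos _).le) fun p hp => rt_one_sub (hx0 p hp) (hx1 p hp)
  have hQabs : |Q - θ / θ'| ≤ ε := by
    rw [← hexpL, abs_le]
    have h2 : ε' ≤ ε / 2 := min_le_left _ _
    have h3 := abs_le.1 hSL
    constructor
    · have h4 := rt_exp_sub (b := S + 2 * T) hL0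
      have h5 : |S + 2 * T - L| ≤ |S - L| + 2 * T := by
        have : S + 2 * T - L = (S - L) + 2 * T := by ring
        rw [this]
        refine (abs_add_le _ _).trans ?_
        rw [abs_of_nonneg (show (0 : ℝ) ≤ 2 * T by positivity)]
      linarith
    · have h4 := rt_exp_sub (b := L) hS0
      have h5 : |L - S| = |S - L| := abs_sub_comm _ _
      linarith
  have hsplit : Pn E2 n = Pn E1 n * Q := by
    unfold Pn
    have h1 : pz E1 = (pz E2).filter (fun p : ℕ => ¬ E1 < (p : ℝ)) := by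
      ext p
      rw [mem_filter, mem_pz, mem_pz, not_lt]
      exact ⟨fun h => ⟨⟨h.1, h.2.trans hE12⟩, h.2⟩, fun h => ⟨h.1.1, h.2⟩⟩
    have h2 : ∏ p ∈ (pz E2).filter (fun p : ℕ => E1 < (p : ℝ)), (1 - (#(rts p n) : ℝ) / p) = Q := by
      have h3 : F = ((pz E2).filter (fun p : ℕ => E1 < (p : ℝ))).filter (fun p : ℕ => p % n = 1) := by
        rw [filter_filter]
      have h4 : ∀ p ∈ (pz E2).filter (fun p : ℕ => E1 < (p : ℝ)), (1 - (#(rts p n) : ℝ) / p) =
          if p % n = 1 then (1 - ((n : ℝ) - 1) / p) else 1 := by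
        intro p hp
        rw [mem_filter, mem_pz] at hp
        have hpn : p ≠ n := by
          rintro rfl
          have := hp.2
          linarith
        rw [card_rts hnp hne2 hp.1.1, if_neg hpn]
        split_ifs with h5
        · rw [Nat.cast_sub hnp.one_lt.le, Nat.cast_one]
        · simp
      rw [prod_congr rfl h4, prod_ite, prod_const_one, mul_one, hQ, h3]
    rw [← h2, h1, mul_comm]
    exact (prod_filter_mul_prod_filter_not _ _ _).symm
  have hPn0 : 0 ≤ Pn E1 n := prod_nonneg fun p _ => rt_fac_nonneg p n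
  have h7 : Pn E2 n - θ / θ' * Pn E1 n = (Q - θ / θ') * Pn E1 n := by
    rw [hsplit]; ring
  rw [h7, abs_mul, abs_of_nonneg hPn0]
  exact mul_le_mul_of_nonneg_right hQabs hPn0

end Pool.Agent.L5helper86.RB
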